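import Pool.Agent.Y350.MD.Base
import Pool.Agent.Helper245.MobAP

/-!
# Diffeomorphisms of arbitrarily large entropy, in every dimension at least three, all powers of
which are disjoint from countably many given weights

For every countable family of bounded sequences with mean value zero along all arithmetic
progressions, every `H` and every `d ≥ 3` there is a `C^1` diffeomorphism `T` of a compact connected
manifold of dimension `d` with topological entropy at least `H` such that `T`, `T^2`, `T^3`, ... are
disjoint from all the sequences of the family. In particular there are Moebius disjoint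
diffeomorphisms of entropy as large as desired in every dimension at least three.

The construction is the one of the theorem `MobiusDisjointTorus` (one weight, entropy positive,
dimension three); new are the simultaneous treatment of countably many weights in the construction
of the subshift (`Pool.Agent.Y350.MD.Sub`), the dilated weights `n ↦ w (n / p)` (`p` divides `n`),
which give the powers and hence large entropy, and the passage to all dimensions.
-/

set_option autoImplicit false

open Filter Topology Manifold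
open scoped ContDiff

namespace Pool.Agent.Results.MP_2872f6_an.CountableWeightsAllDimensions

/-- Moebius disjointness: for every continuous `f : M → ℂ` and every point `x`, the averages
`(1/N) ∑_{1 ≤ n ≤ N} f (T^n x) μ(n)` tend to zero. -/
def MobiusDisjoint {M : Type*} [TopologicalSpace M] (T : M → M) : Prop :=
  ∀ f : M → ℂ, Continuous f → ∀ x : M,
    Tendsto (fun N : ℕ => (∑ n ∈ Finset.Icc 1 N,
      f (T^[n] x) * ((ArithmeticFunction.moebius n : ℤ) : ℂ)) / (N : ℂ)) atTop (𝓝 0)

/-- `T` is disjoint from the weight `w`: for every continuous `f : M → ℂ` and every point `x`, the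
averages `(1/N) ∑_{1 ≤ n ≤ N} f (T^n x) w(n)` tend to zero. -/
def DisjointFrom {M : Type*} [TopologicalSpace M] (w : ℕ → ℂ) (T : M → M) : Prop :=
  ∀ f : M → ℂ, Continuous f → ∀ x : M,
    Tendsto (fun N : ℕ => (∑ n ∈ Finset.Icc 1 N, f (T^[n] x) * w n) / (N : ℂ)) atTop (𝓝 0)

/-- The sequence `w` is bounded and has mean value zero along every arithmetic progression. -/
def Aperiodic (w : ℕ → ℂ) : Prop :=
  (∃ C : ℝ, ∀ n, ‖w n‖ ≤ C) ∧ ∀ q a : ℕ, 0 < q →
    Tendsto (fun N : ℕ => (∑ n ∈ Finset.range N, if n % q = a then w n else 0) / (N : ℂ))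
      atTop (𝓝 0)

/-- There are a compact connected smooth manifold `M` without boundary, of dimension `d`, and a
`C^1` diffeomorphism `T` of `M` of topological entropy at least `H` such that all powers
`T^p`, `p ≥ 1`, are disjoint from all the weights `w j`. -/
def Realised (w : ℕ → ℕ → ℂ) (H : ℝ) (d : ℕ) : Prop :=
  ∃ (E : Type) (_ : NormedAddCommGroup E) (_ : NormedSpace ℝ E) (H' : Type)
    (_ : TopologicalSpace H') (I : ModelWithCorners ℝ E H') (M : Type) (_ : MetricSpace M)
    (_ : ChartedSpace H' M) (T : Diffeomorph I I M M 1),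
    Module.finrank ℝ E = d ∧ I.Boundaryless ∧ IsManifold I ω M ∧ CompactSpace M ∧
    ConnectedSpace M ∧ (H : EReal) ≤ Dynamics.coverEntropy T Set.univ ∧
    ∀ j p : ℕ, 0 < p → DisjointFrom (w j) T^[p]

/-! ### dilated weights -/

theorem sum_dvd {A : Type*} [AddCommMonoid A] (g : ℕ → A) (p : ℕ) (hp : 0 < p) (N : ℕ) :
    ∑ n ∈ Finset.range N, (if p ∣ n then g n else 0) =
      ∑ k ∈ Finset.range ((N + p - 1) / p), g (p * k) := by
  induction N with
  | zero =>
    have : (0 + p - 1) / p = 0 := Nat.div_eq_of_lt (by omega)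
    rw [this]
    simp
  | succ N ih =>
    rw [Finset.sum_range_succ, ih]
    have h1 : (N + 1 + p - 1) / p = (N + p - 1) / p + if p ∣ N then 1 else 0 := by
      have h2 : N + 1 + p - 1 = (N + p - 1) + 1 := by omega
      rw [h2, Nat.succ_div]
      congr 1
      have h3 : N + p - 1 + 1 = N + p := by omega
      rw [h3]
      have h4 : (p ∣ N + p) ↔ p ∣ N := Nat.dvd_add_self_right
      simp only [h4]
    rw [h1]
    by_cases h : p ∣ N
    · rw [if_pos h, if_pos h, Finset.sum_range_succ]
      congr 2
      obtain ⟨c, rfl⟩ := h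
      have : (p * c + p - 1) / p = c := by
        have h5 : p * c + p - 1 = p * c + (p - 1) := by omega
        rw [h5, Nat.mul_add_div hp, Nat.div_eq_of_lt (by omega), add_zero]
      rw [this]
    · rw [if_neg h, if_neg h, add_zero, add_zero]

theorem ap_dilate (w : ℕ → ℝ) (hap : ∀ q a : ℕ, 0 < q →
      Tendsto (fun N : ℕ => (∑ n ∈ Finset.range N, if n % q = a then w n else 0) / N) atTop (𝓝 0))
    (p : ℕ) (hp : 0 < p) (q a : ℕ) (hq : 0 < q) :
    Tendsto (fun N : ℕ => (∑ n ∈ Finset.range N, if n % q = a then
      (if p ∣ n then w (n / p) else 0) else 0) / (N : ℝ)) atTop (𝓝 0) := by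
  have e1 : ∀ N : ℕ, (∑ n ∈ Finset.range N, if n % q = a then
      (if p ∣ n then w (n / p) else 0) else 0) =
      ∑ b ∈ Finset.range q, (if (p * b) % q = a then (1 : ℝ) else 0) *
        ∑ k ∈ Finset.range ((N + p - 1) / p), if k % q = b then w k else 0 := by
    intro N
    have h1 : ∀ n ∈ Finset.range N, (if n % q = a then
        (if p ∣ n then w (n / p) else 0) else 0) =
        if p ∣ n then (if n % q = a then w (n / p) else 0) else 0 := by
      intro n _
      by_cases h2 : n % q = a <;> by_cases h3 : p ∣ n <;> simp [h2, h3]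
    rw [Finset.sum_congr rfl h1, sum_dvd (fun n => if n % q = a then w (n / p) else 0) p hp N]
    simp_rw [Finset.mul_sum]
    rw [Finset.sum_comm]
    refine Finset.sum_congr rfl fun k _ => ?_
    rw [Finset.sum_eq_single_of_mem (k % q) (Finset.mem_range.2 (Nat.mod_lt _ hq))]
    · rw [if_pos rfl, Nat.mul_div_cancel_left _ hp]
      have h4 : (p * (k % q)) % q = (p * k) % q := by
        rw [Nat.mul_mod, Nat.mod_mod, ← Nat.mul_mod]
      rw [h4]
      split_ifs <;> simp
    · intro b _ hb
      rw [if_neg (Ne.symm hb), mul_zero]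
  have hlim : Tendsto (fun N : ℕ => (N + p - 1) / p) atTop atTop := by
    refine tendsto_atTop_mono (fun N => Nat.div_le_div_right (c := p) (by omega : N ≤ N + p - 1)) ?_
    exact Nat.tendsto_div_const_atTop hp.ne'
  have e2 : ∀ b ∈ Finset.range q, Tendsto (fun N : ℕ =>
      (if (p * b) % q = a then (1 : ℝ) else 0) *
        (∑ k ∈ Finset.range ((N + p - 1) / p), if k % q = b then w k else 0) / (N : ℝ))
      atTop (𝓝 0) := by
    intro b _
    have h1 := (hap q b hq).comp hlim
    have h2 := h1.abs
    rw [abs_zero] at h2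
    refine squeeze_zero_norm (fun N => ?_) h2
    simp only [Function.comp]
    rw [Real.norm_eq_abs, abs_div, abs_mul, abs_div, Nat.abs_cast, Nat.abs_cast]
    have h3 : |(if (p * b) % q = a then (1 : ℝ) else 0)| ≤ 1 := by split_ifs <;> simp
    rcases Nat.eq_zero_or_pos N with h0 | h0
    · subst h0
      simp only [Nat.cast_zero, div_zero]
      positivity
    · have h4 : (N + p - 1) / p ≤ N := by
        rw [Nat.div_le_iff_le_mul_add_pred hp]
        have h4' : N ≤ p * N := Nat.le_mul_of_pos_left N hp
        omega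
      have h5 : 0 < (N + p - 1) / p := Nat.div_pos (by omega) hp
      have h6 : (0 : ℝ) < (((N + p - 1) / p : ℕ) : ℝ) := by exact_mod_cast h5
      have h7 : (((N + p - 1) / p : ℕ) : ℝ) ≤ (N : ℝ) := by exact_mod_cast h4
      calc _ ≤ 1 * |∑ k ∈ Finset.range ((N + p - 1) / p), if k % q = b then w k else 0| /
            (N : ℝ) := by gcongr
        _ ≤ |∑ k ∈ Finset.range ((N + p - 1) / p), if k % q = b then w k else 0| /
            (((N + p - 1) / p : ℕ) : ℝ) := by
          rw [one_mul]
          exact div_le_div_of_nonneg_left (abs_nonneg _) h6 h7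
  have e3 := tendsto_finsetSum (Finset.range q) e2
  simp only [Finset.sum_const_zero] at e3
  refine e3.congr fun N => ?_
  rw [e1 N, Finset.sum_div]

/-- from sums over `range N` to sums over `Icc 1 N` -/
theorem convert_avg {a : ℕ → ℂ}
    (h : Tendsto (fun N : ℕ => (∑ n ∈ Finset.range N, a n) / (N : ℂ)) atTop (𝓝 0)) :
    Tendsto (fun N : ℕ => (∑ n ∈ Finset.Icc 1 N, a n) / (N : ℂ)) atTop (𝓝 0) := by
  have h1 := (h.comp (tendsto_add_atTop_nat 1))
  have h2 : Tendsto (fun N : ℕ => (((N + 1 : ℕ) : ℂ) / (N : ℂ))) atTop (𝓝 1) := by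
    have h3 : Tendsto (fun N : ℕ => (1 : ℂ) + 1 / (N : ℂ)) atTop (𝓝 (1 + 0)) :=
      tendsto_const_nhds.add tendsto_one_div_atTop_nhds_zero_nat
    rw [add_zero] at h3
    refine h3.congr' ?_
    filter_upwards [eventually_gt_atTop 0] with N hN
    have : (N : ℂ) ≠ 0 := by exact_mod_cast hN.ne'
    push_cast
    field_simp
  have h4 : Tendsto (fun N : ℕ => a 0 * (1 / (N : ℂ))) atTop (𝓝 (a 0 * 0)) :=
    tendsto_one_div_atTop_nhds_zero_nat.const_mul (a 0)
  have h5 := (h2.mul h1).sub h4
  rw [mul_zero, mul_zero, sub_zero] at h5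
  refine h5.congr' ?_
  filter_upwards [eventually_gt_atTop 0] with N hN
  have hN0 : (N : ℂ) ≠ 0 := by exact_mod_cast hN.ne'
  have hN1 : ((N + 1 : ℕ) : ℂ) ≠ 0 := by exact_mod_cast (Nat.succ_ne_zero N)
  have h6 : ∑ n ∈ Finset.range (N + 1), a n = a 0 + ∑ n ∈ Finset.Icc 1 N, a n := by
    rw [Finset.range_eq_Ico, Finset.sum_eq_sum_Ico_succ_bot (Nat.succ_pos N)]
    congr 1
  simp only [Function.comp]
  rw [h6]
  field_simp
  ring

/-! ### the three-torus -/

open Pool.Agent.Helper245.Dif

/-- powers of a diffeomorphism -/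
theorem exists_pow (F : Diffeomorph I3 I3 T3 T3 1) (m : ℕ) :
    ∃ T : Diffeomorph I3 I3 T3 T3 1, (T : T3 → T3) = F^[m] := by
  induction m with
  | zero => exact ⟨Diffeomorph.refl I3 T3 1, rfl⟩
  | succ m ih =>
    obtain ⟨T, hT⟩ := ih
    refine ⟨T.trans F, ?_⟩
    rw [Function.iterate_succ', ← hT]
    rfl

theorem torus (w : ℕ → ℕ → ℂ) (hw : ∀ j, Aperiodic (w j)) (H : ℝ) : Realised w H 3 := by
  classical
  choose C hC using fun j => (hw j).1
  -- bounds at least one
  obtain ⟨B, hB1, hB⟩ : ∃ B : ℕ → ℝ, (∀ j, 1 ≤ B j) ∧ ∀ j n, ‖w j n‖ ≤ B j :=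
    ⟨fun j => max 1 (C j), fun j => le_max_left _ _, fun j n => (hC j n).trans (le_max_right _ _)⟩
  have hB0 : ∀ j, 0 < B j := fun j => zero_lt_one.trans_le (hB1 j)
  -- real parts and imaginary parts
  let v : Bool → ℕ → ℕ → ℝ := fun s j n => (if s then (w j n).re else (w j n).im) / B j
  have hv : ∀ s j n, |v s j n| ≤ 1 := by
    intro s j n
    simp only [v]
    rw [abs_div, abs_of_pos (hB0 j), div_le_one (hB0 j)]
    refine le_trans ?_ (hB j n)
    cases s
    · simpa using Complex.abs_im_le_norm (w j n)
    · simpa using Complex.abs_re_le_norm (w j n)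
  have hvap : ∀ s j (q a : ℕ), 0 < q → Tendsto (fun N : ℕ =>
      (∑ n ∈ Finset.range N, if n % q = a then v s j n else 0) / N) atTop (𝓝 0) := by
    intro s j q a hq
    have h := (hw j).2 q a hq
    cases s
    · have h1 := ((Complex.continuous_im.tendsto 0).comp h).div_const (B j)
      simp only [Complex.zero_im, zero_div] at h1
      refine h1.congr fun N => ?_
      simp only [Function.comp, Complex.div_natCast_im, Complex.im_sum, v]
      rw [div_right_comm, Finset.sum_div]
      congr 1
      refine Finset.sum_congr rfl fun n _ => ?_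
      split_ifs <;> simp_all
    · have h1 := ((Complex.continuous_re.tendsto 0).comp h).div_const (B j)
      simp only [Complex.zero_re, zero_div] at h1
      refine h1.congr fun N => ?_
      simp only [Function.comp, Complex.div_natCast_re, Complex.re_sum, v]
      rw [div_right_comm, Finset.sum_div]
      congr 1
      refine Finset.sum_congr rfl fun n _ => ?_
      split_ifs <;> simp_all
  -- the family of all dilated weights
  obtain ⟨e, he⟩ := exists_surjective_nat (Bool × ℕ × ℕ)
  let u : ℕ → ℕ → ℝ := fun i n =>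
    if (e i).2.2 + 1 ∣ n then v (e i).1 (e i).2.1 (n / ((e i).2.2 + 1)) else 0
  have hu : ∀ i n, |u i n| ≤ 1 := by
    intro i n
    simp only [u]
    split_ifs
    · exact hv _ _ _
    · simp
  have huap : ∀ i q a : ℕ, 0 < q → Tendsto (fun N : ℕ =>
      (∑ n ∈ Finset.range N, if n % q = a then u i n else 0) / N) atTop (𝓝 0) := by
    intro i q a hq
    exact ap_dilate (v (e i).1 (e i).2.1) (hvap _ _) ((e i).2.2 + 1) (Nat.succ_pos _) q a hq
  obtain ⟨F, hent, hdis⟩ := Pool.Agent.Y350.MD.base u hu huap
  -- the power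
  obtain ⟨m, hm⟩ := exists_nat_gt (5 * H)
  obtain ⟨T, hT⟩ := exists_pow F (m + 1)
  refine ⟨(EuclideanSpace ℝ (Fin 1) × EuclideanSpace ℝ (Fin 1)) × EuclideanSpace ℝ (Fin 1),
    inferInstance, inferInstance,
    ModelProd (ModelProd (EuclideanSpace ℝ (Fin 1)) (EuclideanSpace ℝ (Fin 1)))
      (EuclideanSpace ℝ (Fin 1)), inferInstance, I3, T3, inferInstance, inferInstance, T,
    by simp, inferInstance, inferInstance, inferInstance, ?_, ?_, ?_⟩
  · have h1 : Function.Surjective (Circle.exp : ℝ → Circle) := Circle.exp_surjective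
    have : ConnectedSpace Circle := h1.connectedSpace Circle.exp.continuous
    infer_instance
  · rw [hT]
    refine le_trans ?_ (hent (m + 1) (Nat.succ_pos m))
    rw [EReal.coe_le_coe_iff]
    push_cast
    linarith
  · intro j p hp f hf x
    apply convert_avg (a := fun n => f ((T^[p])^[n] x) * w j n)
    obtain ⟨P, hP⟩ : ∃ P, P + 1 = (m + 1) * p :=
      ⟨(m + 1) * p - 1, Nat.sub_add_cancel (Nat.mul_pos (Nat.succ_pos m) hp)⟩
    have hpow : ∀ n, (T^[p])^[n] x = F^[(P + 1) * n] x := by
      intro n
      rw [hT, ← Function.iterate_mul, ← Function.iterate_mul, hP, mul_assoc]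
    have hs : ∀ s, Tendsto (fun N : ℕ => (∑ n ∈ Finset.range N, (v s j n : ℂ) *
        f ((T^[p])^[n] x)) / (N : ℂ)) atTop (𝓝 0) := by
      intro s
      obtain ⟨i, hi⟩ := he (s, j, P)
      have h1 := (hdis i f hf x).comp
        (tendsto_id.const_mul_atTop' (Nat.succ_pos P) : Tendsto (fun N : ℕ => (P + 1) * N) atTop atTop)
      have h2 := h1.const_mul ((P + 1 : ℕ) : ℂ)
      rw [mul_zero] at h2
      refine h2.congr fun N => ?_
      simp only [Function.comp]
      have h3 : ∑ n ∈ Finset.range ((P + 1) * N), (u i n : ℂ) * f (F^[n] x) =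
          ∑ n ∈ Finset.range N, (v s j n : ℂ) * f ((T^[p])^[n] x) := by
        have h4 : ∀ n ∈ Finset.range ((P + 1) * N), (u i n : ℂ) * f (F^[n] x) =
            if P + 1 ∣ n then (v s j (n / (P + 1)) : ℂ) * f (F^[n] x) else 0 := by
          intro n _
          simp only [u, hi]
          split_ifs <;> simp
        rw [Finset.sum_congr rfl h4, sum_dvd (fun n => (v s j (n / (P + 1)) : ℂ) * f (F^[n] x))
          (P + 1) (Nat.succ_pos P)]
        have h5 : ((P + 1) * N + (P + 1) - 1) / (P + 1) = N := by
          have h6 : (P + 1) * N + (P + 1) - 1 = (P + 1) * N + P := by omega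
          rw [h6, Nat.mul_add_div (Nat.succ_pos P), Nat.div_eq_of_lt (Nat.lt_succ_self P), add_zero]
        rw [h5]
        refine Finset.sum_congr rfl fun n _ => ?_
        rw [Nat.mul_div_cancel_left _ (Nat.succ_pos P), hpow]
      rw [h3]
      rcases Nat.eq_zero_or_pos N with h0 | h0
      · subst h0
        simp
      · have h6 : (N : ℂ) ≠ 0 := by exact_mod_cast h0.ne'
        have h7 : ((P + 1 : ℕ) : ℂ) ≠ 0 := by exact_mod_cast (Nat.succ_ne_zero P)
        rw [Nat.cast_mul]
        field_simp
    have h8 := ((hs true).const_mul (B j : ℂ)).add ((hs false).const_mul ((B j : ℂ) * Complex.I))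
    rw [mul_zero, mul_zero, add_zero] at h8
    refine h8.congr fun N => ?_
    rw [← mul_div_assoc, ← mul_div_assoc, ← add_div, Finset.mul_sum, Finset.mul_sum,
      ← Finset.sum_add_distrib]
    congr 1
    refine Finset.sum_congr rfl fun n _ => ?_
    have hB' : (B j : ℂ) ≠ 0 := by exact_mod_cast (hB0 j).ne'
    have h9 : w j n = (B j : ℂ) * (v true j n : ℂ) + (B j : ℂ) * Complex.I * (v false j n : ℂ) := by
      simp only [v]
      push_cast
      have h10 : (B j : ℂ) * (((w j n).re : ℂ) / (B j : ℂ)) = ((w j n).re : ℂ) := by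
        field_simp
      have h11 : (B j : ℂ) * Complex.I * (((w j n).im : ℂ) / (B j : ℂ)) =
          ((w j n).im : ℂ) * Complex.I := by
        field_simp
      rw [h10, h11, Complex.re_add_im]
    rw [h9]
    ring

/-! ### higher dimensions -/

theorem step {w : ℕ → ℕ → ℂ} {H : ℝ} {d : ℕ} (hd : 0 < d) (h : Realised w H d) :
    Realised w H (d + 1) := by
  obtain ⟨E, _, _, H', _, I, M, _, _, T, h1, h2, h3, h4, h5, h6, h7⟩ := h
  have hfin : Module.Finite ℝ E := Module.finite_of_finrank_pos (by rw [h1]; exact hd)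
  refine ⟨E × EuclideanSpace ℝ (Fin 1), inferInstance, inferInstance,
    ModelProd H' (EuclideanSpace ℝ (Fin 1)), inferInstance, I.prod (𝓡 1), M × Circle,
    inferInstance, inferInstance, T.prodCongr (Diffeomorph.refl (𝓡 1) Circle 1), ?_,
    inferInstance, inferInstance, inferInstance, ?_, ?_, ?_⟩
  · rw [Module.finrank_prod, h1]
    simp
  · have h8 : Function.Surjective (Circle.exp : ℝ → Circle) := Circle.exp_surjective
    have : ConnectedSpace Circle := h8.connectedSpace Circle.exp.continuous
    infer_instance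
  · refine h6.trans ?_
    have h9 : Function.Semiconj (Prod.fst : M × Circle → M)
        (T.prodCongr (Diffeomorph.refl (𝓡 1) Circle 1)) T := fun _ => rfl
    have h10 := Dynamics.coverEntropy_image_le_of_uniformContinuous h9 uniformContinuous_fst
      Set.univ
    rwa [Set.image_univ, Prod.range_fst] at h10
  · intro j p hp f hf x
    have h11 : ∀ n : ℕ, ∀ y : M × Circle, (T.prodCongr (Diffeomorph.refl (𝓡 1) Circle 1))^[n] y =
        (T^[n] y.1, y.2) := by
      intro n
      induction n with
      | zero => intro y; rfl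
      | succ n ih =>
        intro y
        rw [Function.iterate_succ_apply', Function.iterate_succ_apply', ih]
        rfl
    have h12 := h7 j p hp (fun y => f (y, x.2)) (hf.comp (continuous_id.prodMk continuous_const))
      x.1
    refine h12.congr fun N => ?_
    congr 1
    refine Finset.sum_congr rfl fun n _ => ?_
    rw [← Function.iterate_mul, ← Function.iterate_mul, h11]

theorem all_dims (w : ℕ → ℕ → ℂ) (hw : ∀ j, Aperiodic (w j)) (H : ℝ) (d : ℕ) (hd : 3 ≤ d) :
    Realised w H d := by
  induction d, hd using Nat.le_induction with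
  | base => exact torus w hw H
  | succ d hd ih => exact step (by omega) ih

theorem aperiodic_moebius : Aperiodic (fun n => ((ArithmeticFunction.moebius n : ℤ) : ℂ)) := by
  refine ⟨⟨1, fun n => ?_⟩, fun q a hq => ?_⟩
  · have h : |ArithmeticFunction.moebius n| ≤ 1 := ArithmeticFunction.abs_moebius_le_one
    have h1 : ‖((ArithmeticFunction.moebius n : ℤ) : ℂ)‖ =
        ((|ArithmeticFunction.moebius n| : ℤ) : ℝ) := by
      rw [Complex.norm_intCast, Int.cast_abs]
    rw [h1]
    exact_mod_cast h
  · have h := Pool.Agent.Helper245.mobius_ap q a hq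
    have h1 := (Complex.continuous_ofReal.tendsto 0).comp h
    rw [Complex.ofReal_zero] at h1
    refine h1.congr fun N => ?_
    simp only [Function.comp]
    push_cast
    congr 1
    refine Finset.sum_congr rfl fun n _ => ?_
    split_ifs <;> simp

/-- **Main result.** For every countable family of bounded sequences with mean value zero along all
arithmetic progressions, every `H` and every `d ≥ 3` there are a compact connected manifold (without
boundary) of dimension `d` and a `C^1` diffeomorphism `T` of it of topological entropy at least `H`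
such that `T` and all its powers are Moebius disjoint and disjoint from all sequences of the
family. -/
theorem result (w : ℕ → ℕ → ℂ) (hw : ∀ j, Aperiodic (w j)) (H : ℝ) (d : ℕ) (hd : 3 ≤ d) :
    ∃ (E : Type) (_ : NormedAddCommGroup E) (_ : NormedSpace ℝ E) (H' : Type)
      (_ : TopologicalSpace H') (I : ModelWithCorners ℝ E H') (M : Type) (_ : MetricSpace M)
      (_ : ChartedSpace H' M) (T : Diffeomorph I I M M 1),
      Module.finrank ℝ E = d ∧ I.Boundaryless ∧ IsManifold I ω M ∧ CompactSpace M ∧
      ConnectedSpace M ∧ (H : EReal) ≤ Dynamics.coverEntropy T Set.univ ∧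
      (∀ p : ℕ, 0 < p → MobiusDisjoint T^[p]) ∧
      ∀ j p : ℕ, 0 < p → DisjointFrom (w j) T^[p] := by
  let w' : ℕ → ℕ → ℂ := fun j n =>
    Nat.casesOn j ((ArithmeticFunction.moebius n : ℤ) : ℂ) (fun j => w j n)
  have hw' : ∀ j, Aperiodic (w' j) := by
    intro j
    cases j with
    | zero => exact aperiodic_moebius
    | succ j => exact hw j
  obtain ⟨E, i1, i2, H', i3, I, M, i4, i5, T, h1, h2, h3, h4, h5, h6, h7⟩ :=
    all_dims w' hw' H d hd
  exact ⟨E, i1, i2, H', i3, I, M, i4, i5, T, h1, h2, h3, h4, h5, h6,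
    fun p hp => h7 0 p hp, fun j p hp => h7 (j + 1) p hp⟩

end Pool.Agent.Results.MP_2872f6_an.CountableWeightsAllDimensions
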